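import Pool.Agent.Helper53.AC.L3

/-!
# AP-1: decomposition of a function, two sets with a small common border

Adapt the proof of `exists_family` (file AC/L3.lean, please copy and modify it).
Let `K = E₁ ∪ E₂`. The cells are `P j = K ∩ closedBall (lp s j) (2 * s)`, exactly as there.
The colour of the cell `j` is
* `0` if `P j ⊆ E₁`, `1` if `P j ⊆ E₂` (otherwise);
* otherwise `2` if `P j ⊆ cthickening (3 * t) X`;
* otherwise `3` (junction cells).
Bound for the junction cells (`J₃`): choose `s' ∈ (0, ...)` from the frequently condition with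
`s = s' / 3` so small that also `2 * s ≤ t`, `4 * s < δ` (as in L3). If `j` is a junction cell
then `closedBall (lp s j) (2 * s)` contains a point of `E₁ \ E₂` and a point of `E₂ \ E₁`, and a
point which is not in `cthickening (3 * t) X`, so the ball `ball (lp s j) (s / 2)` is contained in
`(thickening (3 * s) (E₁ \ E₂) ∩ thickening (3 * s) (E₂ \ E₁)) \ thickening t X`
(if a point `y` of the small ball was at distance `< t` from `X` then each point of the large ball
would be at distance `< t + s / 2 + 4 * s ≤ 3 * t` from `X`). These balls are disjoint for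
different `j`, the volume of each is `π * (s / 2) ^ 2`, so
`#J₃ * π * (s / 2) ^ 2 ≤ C * (3 * s)`, i.e. `#J₃ * s ≤ 12 * C / π ≤ 4 * C`. As `α ≤ R = 2 * s`
(`Cell.α_le`) we get `∑_{J₃} α ≤ 8 * C`.
-/

set_option autoImplicit false

open Complex Filter Topology Metric
open scoped ComplexConjugate

namespace Pool.Agent.SV

open Pool.Agent.Helper53.CAC

private theorem ap1_dist {s : ℝ} (hs : 0 < s) {i j : ℤ × ℤ} (hij : i ≠ j) :
    s ≤ dist (lp s i) (lp s j) := by
  have key : ∀ m n : ℤ, m ≠ n → s ≤ |s * m - s * n| := by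
    intro m n hmn
    have h1 : (1 : ℝ) ≤ |((m - n : ℤ) : ℝ)| := by
      have h2 : (1 : ℤ) ≤ |m - n| := Int.one_le_abs (sub_ne_zero.2 hmn)
      calc (1 : ℝ) = ((1 : ℤ) : ℝ) := by norm_num
        _ ≤ ((|m - n| : ℤ) : ℝ) := by exact_mod_cast h2
        _ = |((m - n : ℤ) : ℝ)| := by push_cast; rfl
    have h3 : s * (m : ℝ) - s * n = s * ((m - n : ℤ) : ℝ) := by push_cast; ring
    rw [h3, abs_mul, abs_of_pos hs]
    nlinarith
  rw [dist_eq_norm]
  by_cases h : i.1 = j.1
  · have h2 : i.2 ≠ j.2 := fun h2 => hij (Prod.ext h h2)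
    have h3 := Complex.abs_im_le_norm (lp s i - lp s j)
    exact (key _ _ h2).trans h3
  · have h3 := Complex.abs_re_le_norm (lp s i - lp s j)
    exact (key _ _ h).trans h3

private theorem ap1_count {s V : ℝ} (hs : 0 < s) (hV : 0 ≤ V) {U : Set ℂ}
    (hU : MeasureTheory.volume U ≤ ENNReal.ofReal V) (S : Finset (ℤ × ℤ))
    (h : ∀ j ∈ S, ball (lp s j) (s / 2) ⊆ U) :
    (S.card : ℝ) * (Real.pi * (s / 2) ^ 2) ≤ V := by
  have h1 : MeasureTheory.volume (⋃ j ∈ S, ball (lp s j) (s / 2)) =
      ∑ j ∈ S, MeasureTheory.volume (ball (lp s j) (s / 2)) := by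
    apply MeasureTheory.measure_biUnion_finset
    · intro i _ j _ hij
      apply ball_disjoint_ball
      have := ap1_dist hs hij
      linarith
    · intro j _
      exact measurableSet_ball
  have h2 : MeasureTheory.volume (⋃ j ∈ S, ball (lp s j) (s / 2)) ≤ ENNReal.ofReal V :=
    (MeasureTheory.measure_mono (Set.iUnion₂_subset h)).trans hU
  rw [h1] at h2
  have h3 : ∀ j ∈ S, MeasureTheory.volume (ball (lp s j) (s / 2)) =
      ENNReal.ofReal (Real.pi * (s / 2) ^ 2) := by
    intro j _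
    rw [Complex.volume_ball, mul_comm Real.pi, ENNReal.ofReal_mul (by positivity),
      ENNReal.ofReal_pow (by positivity)]
    congr 1
    rw [← NNReal.coe_real_pi, ENNReal.ofReal_coe_nnreal]
  rw [Finset.sum_congr rfl h3, Finset.sum_const, nsmul_eq_mul] at h2
  rw [← ENNReal.ofReal_natCast, ← ENNReal.ofReal_mul (by positivity)] at h2
  exact (ENNReal.ofReal_le_ofReal_iff hV).1 h2

theorem exists_family2 : ∃ C₀ : ℝ, 0 < C₀ ∧ ∀ (E₁ E₂ X : Set ℂ), IsCompact E₁ → IsCompact E₂ →
    IsCompact X → ∀ t : ℝ, 0 < t → ∀ C : ℝ, 0 ≤ C →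
    (∃ᶠ s : ℝ in 𝓝[>] 0, MeasureTheory.volume
      ((thickening s (E₁ \ E₂) ∩ thickening s (E₂ \ E₁)) \ thickening t X)
        ≤ ENNReal.ofReal (C * s)) →
    ∀ (f : ℂ → ℂ) (a : ℂ), Continuous f → DifferentiableOn ℂ f (E₁ ∪ E₂)ᶜ →
    Tendsto f (cocompact ℂ) (𝓝 0) → Tendsto (fun z => z * f z) (cocompact ℂ) (𝓝 a) →
    ∀ ω : ℝ, 0 < ω →
    ∃ (Fam : CellFam 4 ![E₁, E₂, (E₁ ∪ E₂) ∩ cthickening (3 * t) X, E₁ ∪ E₂] C₀)
      (g : Fin Fam.k → ℂ → ℂ) (A B : Fin Fam.k → ℂ),
      (∀ j, AF (Fam.P j) (Fam.c j) (g j) (A j) (B j)) ∧ (∀ j z, ‖g j z‖ ≤ ω) ∧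
      (∀ z, f z = ∑ j, g j z) ∧ a = ∑ j, A j ∧
      ∑ j with Fam.grp j = 3, Fam.α j ≤ 8 * C := by
  obtain ⟨C₀, hC₀, hlat⟩ := lattice_sum
  obtain ⟨D, hD, hpou⟩ := exists_pou
  refine ⟨C₀, hC₀, ?_⟩
  intro E₁ E₂ X hE₁ hE₂ _ t ht C hC0 hfr f a hf hfd hf0 hfa ω hω
  classical
  have hKc : IsCompact (E₁ ∪ E₂) := hE₁.union hE₂
  -- uniform continuity
  have huc : UniformContinuous f := hf.uniformContinuous_of_tendsto_cocompact hf0
  obtain ⟨δ, hδ, hδf⟩ := Metric.uniformContinuous_iff.1 huc (ω / (2 * D)) (by positivity)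
  obtain ⟨s, hs, hsr, hsδ, hvol⟩ : ∃ s : ℝ, 0 < s ∧ 2 * s ≤ t ∧ 4 * s < δ ∧
      MeasureTheory.volume
      ((thickening (3 * s) (E₁ \ E₂) ∩ thickening (3 * s) (E₂ \ E₁)) \ thickening t X)
        ≤ ENNReal.ofReal (C * (3 * s)) := by
    have h1 : ∀ᶠ s : ℝ in 𝓝[>] 0, s < min t (δ / 4) ∧ 0 < s := by
      have h2 : (0 : ℝ) < min t (δ / 4) := by positivity
      exact (eventually_nhdsWithin_of_eventually_nhds (Iio_mem_nhds h2)).and
        self_mem_nhdsWithin
    obtain ⟨s', hs', hlt, hpos⟩ := (hfr.and_eventually h1).exists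
    have e : 3 * (s' / 3) = s' := by ring
    have h3 := min_le_left t (δ / 4)
    have h4 := min_le_right t (δ / 4)
    refine ⟨s' / 3, by linarith, by linarith, by linarith, ?_⟩
    rw [e]
    exact hs'
  obtain ⟨φ, hφc, hφs, hφd, hφ1⟩ := hpou s hs
  have hs2 : 0 < 2 * s := by linarith
  -- a large disc
  obtain ⟨M, hM⟩ := hKc.isBounded.subset_ball (0 : ℂ)
  obtain ⟨J, hJ⟩ := l3_finite (M := M + 2 * s) hs
  have hJmem : ∀ z ∈ ball (0 : ℂ) M, ∀ j, φ j z ≠ 0 → j ∈ J := by
    intro z hz j hj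
    apply hJ
    have h1 : z ∈ tsupport (φ j) := subset_tsupport _ hj
    have h2 := hφs j h1
    rw [mem_closedBall, dist_eq_norm] at h2
    rw [mem_ball_zero_iff] at hz
    have h3 : ‖lp s j‖ ≤ ‖z‖ + ‖z - lp s j‖ := by
      have h4 : lp s j = z - (z - lp s j) := by ring
      calc ‖lp s j‖ = ‖z - (z - lp s j)‖ := by rw [← h4]
        _ ≤ _ := norm_sub_le _ _
    linarith
  have hcs : ∀ j, HasCompactSupport (φ j) := fun j =>
    HasCompactSupport.of_support_subset_isCompact (isCompact_closedBall (lp s j) (2 * s))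
      ((subset_tsupport _).trans (hφs j))
  -- the localised functions
  set g₀ : ℤ × ℤ → ℂ → ℂ := fun j => loc (φ j) f with hg₀
  have hsumf : ∀ z, f z = ∑ j ∈ J, g₀ j z := by
    intro z
    have h1 : ContDiff ℝ (⊤ : ℕ∞) (fun y => ∑ j ∈ J, φ j y) := ContDiff.sum fun j _ => hφc j
    have h2 : HasCompactSupport (fun y => ∑ j ∈ J, φ j y) := by
      have : ∀ S : Finset (ℤ × ℤ), HasCompactSupport (fun y => ∑ j ∈ S, φ j y) := by
        intro S
        induction S using Finset.induction_on with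
        | empty =>
          simp only [Finset.sum_empty]
          exact HasCompactSupport.zero
        | insert j S hj ih =>
          simp only [Finset.sum_insert hj]
          exact (hcs j).add ih
      exact this J
    have h3 := loc_one h1 h2 hf hKc hfd hf0 isOpen_ball hM (fun z hz => hφ1 z J (hJmem z hz)) z
    rw [← h3]
    exact loc_sum J (fun j _ => hφc j) (fun j _ => hcs j) hf z
  have hreg : ∀ j, Continuous (g₀ j) ∧
      DifferentiableOn ℂ (g₀ j) ((E₁ ∪ E₂) ∩ closedBall (lp s j) (2 * s))ᶜ ∧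
      Tendsto (g₀ j) (cocompact ℂ) (𝓝 0) := fun j => loc_reg (hφc j) (hφs j) hf hKc hfd
  have hbd : ∀ j z, ‖g₀ j z‖ ≤ ω := by
    intro j z
    have h1 := loc_bound hs2 (hφc j) (hφs j) (hφd j) hf hKc hfd (ω := ω / (2 * D))
      (fun y hy y' hy' => by
        rw [mem_closedBall] at hy hy'
        have h2 : dist y y' < δ := by
          have h3 := dist_triangle_right y y' (lp s j)
          linarith
        have h3 := hδf h2
        rw [dist_eq_norm] at h3
        exact h3.le) z
    have h2 : 2 * D * (ω / (2 * D)) = ω := by field_simp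
    rwa [h2] at h1
  set P : ℤ × ℤ → Set ℂ := fun j => (E₁ ∪ E₂) ∩ closedBall (lp s j) (2 * s) with hP
  have hPc : ∀ j, IsCompact (P j) := fun j => hKc.inter_right isClosed_closedBall
  have hPs : ∀ j, P j ⊆ closedBall (lp s j) (2 * s) := fun j => Set.inter_subset_right
  have hAF : ∀ j, ∃ a b : ℂ, AF (P j) (lp s j) (g₀ j) a b := by
    intro j
    obtain ⟨h1, h2, h3⟩ := hreg j
    have h4 : {z | 2 * s < ‖z - lp s j‖} ⊆ (P j)ᶜ := by
      intro z hz hzP
      have h5 := hPs j hzP
      rw [mem_closedBall, dist_eq_norm] at h5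
      have h6 : 2 * s < ‖z - lp s j‖ := hz
      linarith
    obtain ⟨a, b, hab⟩ := Coef.exists_of (h2.mono h4) (fun z _ => hbd j z) h3
    exact ⟨a, b, h1, h2, hab⟩
  choose A₀ B₀ hAB using hAF
  have hcell : ∀ j, ∃ (d : ℝ) (c : ℂ) (G H : ℂ → ℂ), alpha (P j) ≠ 0 →
      Cell (P j) (lp s j) (2 * s) (alpha (P j)).toReal d c G H := by
    intro j
    by_cases h : alpha (P j) = 0
    · exact ⟨0, 0, 0, 0, fun h' => absurd h h'⟩
    · obtain ⟨d, c, G, H, hC⟩ := exists_cell hs2 (hPc j) (hPs j) h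
      exact ⟨d, c, G, H, fun _ => hC⟩
  choose d c G H hC using hcell
  set K : Fin 4 → Set ℂ := ![E₁, E₂, (E₁ ∪ E₂) ∩ cthickening (3 * t) X, E₁ ∪ E₂] with hKdef
  let grp : ℤ × ℤ → Fin 4 := fun j =>
    if P j ⊆ E₁ then 0 else if P j ⊆ E₂ then 1 else
      if P j ⊆ cthickening (3 * t) X then 2 else 3
  have hgrp : ∀ j, P j ⊆ K (grp j) := by
    intro j
    by_cases h1 : P j ⊆ E₁
    · have e : grp j = 0 := if_pos h1
      rw [e]
      exact h1
    · by_cases h2 : P j ⊆ E₂
      · have e : grp j = 1 := by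
          simp only [grp]
          rw [if_neg h1, if_pos h2]
        rw [e]
        exact h2
      · by_cases h3 : P j ⊆ cthickening (3 * t) X
        · have e : grp j = 2 := by
            simp only [grp]
            rw [if_neg h1, if_neg h2, if_pos h3]
          rw [e]
          exact Set.subset_inter Set.inter_subset_left h3
        · have e : grp j = 3 := by
            simp only [grp]
            rw [if_neg h1, if_neg h2, if_neg h3]
          rw [e]
          exact Set.inter_subset_left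
  have hgrp3 : ∀ j, grp j = 3 → ¬ P j ⊆ E₁ ∧ ¬ P j ⊆ E₂ ∧ ¬ P j ⊆ cthickening (3 * t) X := by
    intro j hj
    simp only [grp] at hj
    refine ⟨fun h1 => ?_, fun h2 => ?_, fun h3 => ?_⟩
    · rw [if_pos h1] at hj
      exact absurd hj (by decide)
    · rw [if_pos h2] at hj
      split_ifs at hj
      all_goals exact absurd hj (by decide)
    · rw [if_pos h3] at hj
      split_ifs at hj
      all_goals exact absurd hj (by decide)
  set J' := J.filter (fun j => alpha (P j) ≠ 0) with hJ'
  have hJ'mem : ∀ n : Fin J'.card, alpha (P (enum J' n)) ≠ 0 := fun n =>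
    (Finset.mem_filter.1 (d6_enum_mem J' n)).2
  let Fam : CellFam 4 K C₀ :=
    { k := J'.card
      P := fun n => P (enum J' n)
      x := fun n => lp s (enum J' n)
      R := 2 * s
      α := fun n => (alpha (P (enum J' n))).toReal
      d := fun n => d (enum J' n)
      c := fun n => c (enum J' n)
      G := fun n => G (enum J' n)
      H := fun n => H (enum J' n)
      grp := fun n => grp (enum J' n)
      R_pos := hs2
      cell := fun n => hC _ (hJ'mem n)
      sub := fun n => hgrp (enum J' n)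
      lat := fun z => by
        rw [d6_enum_sum J' (fun j => wt (2 * s) (z - lp s j))]
        exact hlat s hs z J' }
  have hsumf' : ∀ z, f z = ∑ j ∈ J', g₀ j z := by
    intro z
    rw [hsumf z, hJ', Finset.sum_filter]
    refine Finset.sum_congr rfl fun j _ => ?_
    split_ifs with h
    · rfl
    · push Not at h
      exact AF.eq_zero (hPc j) h (hAB j) z
  refine ⟨Fam, fun n => g₀ (enum J' n), fun n => A₀ (enum J' n),
    fun n => B₀ (enum J' n) + (lp s (enum J' n) - c (enum J' n)) * A₀ (enum J' n), ?_, ?_, ?_, ?_, ?_⟩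
  · intro n
    exact (hAB (enum J' n)).recenter (c (enum J' n))
  · intro n z
    exact hbd _ z
  · intro z
    rw [hsumf' z]
    exact (d6_enum_sum J' (fun j => g₀ j z)).symm
  · have h1 : a = ∑ j ∈ J', A₀ j := by
      have h2 : Tendsto (fun z => z * f z) (cocompact ℂ) (𝓝 (∑ j ∈ J', A₀ j)) := by
        have h3 := tendsto_finsetSum J' (fun j _ => (hAB j).coef.ca)
        refine h3.congr fun z => ?_
        rw [hsumf' z, Finset.mul_sum]
      exact tendsto_nhds_unique hfa h2
    rw [h1]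
    exact (d6_enum_sum J' A₀).symm
  · -- the junction cells
    have hcard : ((J'.filter (fun j => grp j = 3)).card : ℝ) * (Real.pi * (s / 2) ^ 2) ≤
        C * (3 * s) := by
      refine ap1_count hs (by positivity) hvol _ fun j hj => ?_
      obtain ⟨n1, n2, n3⟩ := hgrp3 j (Finset.mem_filter.1 hj).2
      obtain ⟨w1, hw1, hw1'⟩ := Set.not_subset.1 n1
      obtain ⟨w2, hw2, hw2'⟩ := Set.not_subset.1 n2
      obtain ⟨w3, hw3, hw3'⟩ := Set.not_subset.1 n3
      intro y hy
      rw [mem_ball] at hy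
      have hd : ∀ w ∈ P j, dist y w < 3 * s := by
        intro w hw
        have h1 := hPs j hw
        rw [mem_closedBall] at h1
        have h2 := dist_triangle_right y w (lp s j)
        linarith
      refine ⟨⟨?_, ?_⟩, ?_⟩
      · rw [mem_thickening_iff]
        exact ⟨w2, ⟨hw2.1.resolve_right hw2', hw2'⟩, hd w2 hw2⟩
      · rw [mem_thickening_iff]
        exact ⟨w1, ⟨hw1.1.resolve_left hw1', hw1'⟩, hd w1 hw1⟩
      · intro hyX
        rw [mem_thickening_iff] at hyX
        obtain ⟨x, hxX, hyx⟩ := hyX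
        apply hw3'
        apply mem_cthickening_of_dist_le w3 x (3 * t) X hxX
        have h1 := hd w3 hw3
        have h2 := dist_triangle_left w3 x y
        linarith
    have hpi := Real.pi_gt_three
    have hcard2 : ((J'.filter (fun j => grp j = 3)).card : ℝ) * (2 * s) ≤ 8 * C := by
      set N : ℝ := ((J'.filter (fun j => grp j = 3)).card : ℝ) with hN
      have hN0 : 0 ≤ N := Nat.cast_nonneg _
      have h1 : N * (3 * (s / 2) ^ 2) ≤ C * (3 * s) := by
        refine le_trans ?_ hcard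
        apply mul_le_mul_of_nonneg_left _ hN0
        apply mul_le_mul_of_nonneg_right hpi.le (by positivity)
      have h2 : s * (N * s) ≤ s * (4 * C) := by nlinarith
      have h3 : N * s ≤ 4 * C := le_of_mul_le_mul_left h2 hs
      linarith
    calc ∑ j with Fam.grp j = 3, Fam.α j ≤ ∑ j with Fam.grp j = 3, 2 * s :=
          Finset.sum_le_sum fun n _ => (Fam.cell n).α_le
      _ = ∑ n : Fin J'.card, (if grp (enum J' n) = 3 then 2 * s else 0) := by
          rw [Finset.sum_filter]
      _ = ∑ j ∈ J', (if grp j = 3 then 2 * s else 0) :=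
          d6_enum_sum J' (fun j => if grp j = 3 then 2 * s else 0)
      _ = ((J'.filter (fun j => grp j = 3)).card : ℝ) * (2 * s) := by
          rw [← Finset.sum_filter, Finset.sum_const, nsmul_eq_mul]
      _ ≤ 8 * C := hcard2

end Pool.Agent.SV
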