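import Pool.Agent.Helper53.AC.B8

/-!
# AP-2: the mass bound

This is an intermediate result in the proof of `back_main` (file AC/B8.lean, please copy and
modify it; private lemmas there must be copied): there `a = ∑ j ∈ T, u j * Fam.α j` (`hcoef`) with
`‖u j‖ ≤ 200 * lam`, where `T` is the set of the `j` with `Fam.grp j = i`.
-/

set_option autoImplicit false

open Complex Filter Topology Metric
open scoped ComplexConjugate

namespace Pool.Agent.SV

open Pool.Agent.Helper53.CAC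

private theorem ap2_rho_cont (α d : ℝ) (c : ℂ) (θ lam : ℝ) : Continuous (rhoC α d c θ lam) :=
  continuous_const.mul ((blob_cont _ _).add (blob_cont _ _))

private theorem ap2_rho_nonneg {α : ℝ} (hα : 0 < α) (d : ℝ) (c : ℂ) (θ : ℝ) {lam : ℝ}
    (hlam : 0 < lam) (ζ : ℂ) : 0 ≤ rhoC α d c θ lam ζ :=
  mul_nonneg (mul_pos hlam hα).le (add_nonneg (blob_nonneg _ _ _) (blob_nonneg _ _ _))

private theorem ap2_rho_compact {α : ℝ} (hα : 0 < α) (d : ℝ) (c : ℂ) {θ : ℝ} (hθ : 0 < θ)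
    (lam : ℝ) : HasCompactSupport (rhoC α d c θ lam) :=
  ((blob_compact _ (mul_pos hθ hα)).add (blob_compact _ (mul_pos hθ hα))).mul_left

private theorem ap2_radius {k : ℕ} (ρ : Fin k → ℂ → ℝ) (hρs : ∀ c, HasCompactSupport (ρ c)) :
    ∃ w : ℂ, ∀ c z, 0 < ρ c z → 1 ≤ ‖w - z‖ := by
  have h1 : IsCompact (⋃ c, tsupport (ρ c)) := isCompact_iUnion (fun c => hρs c)
  obtain ⟨C, hC⟩ := h1.isBounded.exists_norm_le
  refine ⟨((|C| + 1 : ℝ) : ℂ), ?_⟩
  intro c z hz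
  have h2 : z ∈ ⋃ c, tsupport (ρ c) :=
    Set.mem_iUnion.2 ⟨c, subset_tsupport _ (Function.mem_support.2 (ne_of_gt hz))⟩
  have h3 := hC z h2
  have h4 : ‖((|C| + 1 : ℝ) : ℂ)‖ = |C| + 1 := by
    rw [Complex.norm_real, Real.norm_of_nonneg (by positivity)]
  have h5 := norm_sub_norm_le ((|C| + 1 : ℝ) : ℂ) z
  rw [h4] at h5
  linarith [le_abs_self C]

private theorem ap2_AF_sum {ι : Type*} (s : Finset ι) {P : Set ℂ} {f : ι → ℂ → ℂ} {x : ℂ}
    {a b : ι → ℂ} (h : ∀ i ∈ s, AF P x (f i) (a i) (b i)) :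
    AF P x (fun z => ∑ i ∈ s, f i z) (∑ i ∈ s, a i) (∑ i ∈ s, b i) where
  cont := continuous_finsetSum s fun i hi => (h i hi).cont
  holo := DifferentiableOn.fun_sum fun i hi => (h i hi).holo
  coef := Coef.sum s fun i hi => (h i hi).coef

theorem mass_bound {m : ℕ} {K : Fin m → Set ℂ} {C₀ : ℝ} (Fam : CellFam m K C₀)
    (hk : 0 < Fam.k) {θ lam : ℝ} (hθ : 0 < θ) (hθ1 : θ ≤ 1 / 8) (hlam : 0 < lam) :
    ∀ᶠ h : ℝ in 𝓝[>] 0, ∀ (i : Fin m) (F : ℂ → ℂ) (a : ℂ),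
      DifferentiableOn ℂ F (grpDom Fam.k m
        (fun j => rhoC (Fam.α j) (Fam.d j) (Fam.c j) θ lam) Fam.grp i h) →
      (∀ z ∈ grpDom Fam.k m
        (fun j => rhoC (Fam.α j) (Fam.d j) (Fam.c j) θ lam) Fam.grp i h, ‖F z‖ ≤ 1) →
      Tendsto F (cocompact ℂ) (𝓝 0) → Tendsto (fun z => z * F z) (cocompact ℂ) (𝓝 a) →
      ‖a‖ ≤ 200 * lam * ∑ j with Fam.grp j = i, Fam.α j := by
  classical
  obtain ⟨k, hkdef⟩ : ∃ k : ℕ, k = Fam.k := ⟨_, rfl⟩
  have hk1 : (1 : ℝ) ≤ (Fam.k : ℝ) := by exact_mod_cast hk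
  set ρ : Fin Fam.k → ℂ → ℝ := fun j => rhoC (Fam.α j) (Fam.d j) (Fam.c j) θ lam with hρdef
  have hα : ∀ j, 0 < Fam.α j := fun j => (Fam.cell j).α_pos
  have hρc : ∀ j, Continuous (ρ j) := fun j => ap2_rho_cont _ _ _ _ _
  have hρ0 : ∀ j z, 0 ≤ ρ j z := fun j z => ap2_rho_nonneg (hα j) _ _ _ hlam z
  have hρs : ∀ j, HasCompactSupport (ρ j) := fun j => ap2_rho_compact (hα j) _ _ hθ _
  obtain ⟨w, hw⟩ := ap2_radius ρ hρs
  obtain ⟨A, B, C₁, -, hdil⟩ := grid_dil Fam.k hk (fun j z => 64 * ρ j z)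
    (fun j => continuous_const.mul (hρc j)) (fun j z => mul_nonneg (by norm_num) (hρ0 j z))
    (fun j => (hρs j).mul_left) w (fun j z hz => hw j z (by linarith))
  have hcell : ∀ᶠ h : ℝ in 𝓝[>] 0, ∀ j : Fin Fam.k, ∀ J : Finset (Fin Fam.k × ℤ × ℤ),
      (∀ y ∈ J, y.1 = j ∧ 0 < ρ j (gp Fam.k h y)) → ∀ F : ℂ → ℂ,
      (∀ y ∈ J, ContinuousOn F (sphere (gp Fam.k h y) (64 * (ρ j (gp Fam.k h y) * h ^ 2)))) →
      (∀ y ∈ J, ∀ z ∈ sphere (gp Fam.k h y) (64 * (ρ j (gp Fam.k h y) * h ^ 2)),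
        ‖F z‖ ≤ 1) →
      ∃ u v : ℂ, ‖u‖ ≤ 200 * lam ∧ ‖v‖ ≤ 400 * lam ∧
        ∑ y ∈ J, pA F (gp Fam.k h y) (64 * (ρ j (gp Fam.k h y) * h ^ 2)) = u * Fam.α j ∧
        ∀ z, (∀ y ∈ J, h / 2 ≤ ‖z - gp Fam.k h y‖) →
          ‖∑ y ∈ J, part F (gp Fam.k h y) (64 * (ρ j (gp Fam.k h y) * h ^ 2)) z
            - (u * Fam.G j z + v * Fam.H j z)‖
              ≤ 10 ^ 7 * lam / θ * wt Fam.R (z - Fam.x j) := by
    rw [Filter.eventually_all]
    intro j
    exact back_cell hk j Fam.R_pos (Fam.cell j) hθ hθ1 hlam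
  filter_upwards [hdil, hcell, self_mem_nhdsWithin] with h hI hB hh0 i F a hFd hFb hF0 hFa
  have hh : 0 < h := hh0
  obtain ⟨I, hI, hD⟩ := hI
  have hr : ∀ x ∈ I, 128 * (64 * (ρ x.1 (gp Fam.k h x) * h ^ 2)) ≤ h / Fam.k := by
    intro x hx
    have h1 := d6_rad hD hx
    have h2 : gr Fam.k (fun j z => 64 * ρ j z) h x = 64 * (ρ x.1 (gp Fam.k h x) * h ^ 2) := by
      unfold gr; ring
    rwa [h2] at h1
  have hδ : h / Fam.k ≤ h := div_le_self hh.le hk1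
  have hpos : ∀ x ∈ I, 0 < ρ x.1 (gp Fam.k h x) * h ^ 2 := by
    intro x hx
    have h1 := (hI x).1 hx
    have h2 : 0 < ρ x.1 (gp Fam.k h x) := by linarith
    positivity
  have hmem : ∀ x, 0 < ρ x.1 (gp Fam.k h x) → x ∈ I := by
    intro x hx
    exact (hI x).2 (by positivity)
  set J : Finset (Fin Fam.k × ℤ × ℤ) := I.filter (fun x => Fam.grp x.1 = i) with hJdef
  have hJI : J ⊆ I := Finset.filter_subset _ _
  obtain ⟨c, hcp, hcr, -, -⟩ := dil_config hD hJI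
  have hcr' : ∀ q, c.r q = 64 * (ρ (enum J q).1 (gp Fam.k h (enum J q)) * h ^ 2) := by
    intro q
    rw [hcr]
    simp only [Function.comp_apply]
    unfold gr; ring
  have hcp' : ∀ q, c.p q = gp Fam.k h (enum J q) := by
    intro q
    rw [hcp]
    rfl
  -- the closed domain is contained in `grpDom`
  have hdom : ∀ z : ℂ, (∀ x ∈ J, 64 * (ρ x.1 (gp Fam.k h x) * h ^ 2) ≤ ‖z - gp Fam.k h x‖) →
      z ∈ grpDom Fam.k m ρ Fam.grp i h := by
    intro z hz x hxi hx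
    have h1 : x ∈ I := hmem x hx
    have h2 := hz x (Finset.mem_filter.2 ⟨h1, hxi⟩)
    have h3 := hpos x h1
    have h4 : gr Fam.k ρ h x = ρ x.1 (gp Fam.k h x) * h ^ 2 := rfl
    rw [h4]
    linarith
  have hOmc : Omc c ⊆ grpDom Fam.k m ρ Fam.grp i h := by
    intro z hz
    refine hdom z fun x hx => ?_
    have h1 := hz (J.equivFin ⟨x, hx⟩)
    have h2 : enum J (J.equivFin ⟨x, hx⟩) = x := by
      unfold enum
      rw [Equiv.symm_apply_apply]
    rw [hcr', hcp', h2] at h1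
    exact h1
  have hOm : Om c ⊆ Omc c := fun z hz q => (hz q).le
  have hReg : Reg c F 0 :=
    ⟨hFd.mono (hOm.trans hOmc), hFd.continuousOn.mono hOmc, hF0⟩
  obtain ⟨hsplit, ha⟩ := split_parts c hReg hFa
  have hsplit' : ∀ z, (∀ x ∈ J, 64 * (ρ x.1 (gp Fam.k h x) * h ^ 2) < ‖z - gp Fam.k h x‖) →
      F z = ∑ x ∈ J, part F (gp Fam.k h x) (64 * (ρ x.1 (gp Fam.k h x) * h ^ 2)) z := by
    intro z hz
    rw [hsplit z (fun q => by rw [hcr', hcp']; exact hz _ (d6_enum_mem J q)),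
      ← d6_enum_sum J (fun x => part F (gp Fam.k h x) (64 * (ρ x.1 (gp Fam.k h x) * h ^ 2)) z)]
    refine Finset.sum_congr rfl fun q _ => ?_
    rw [hcr', hcp']
  have ha' : a = ∑ x ∈ J, pA F (gp Fam.k h x) (64 * (ρ x.1 (gp Fam.k h x) * h ^ 2)) := by
    rw [ha, ← d6_enum_sum J
      (fun x => pA F (gp Fam.k h x) (64 * (ρ x.1 (gp Fam.k h x) * h ^ 2)))]
    refine Finset.sum_congr rfl fun q _ => ?_
    rw [hcr', hcp']
  -- spheres are contained in the domain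
  have hsph : ∀ y ∈ J, sphere (gp Fam.k h y) (64 * (ρ y.1 (gp Fam.k h y) * h ^ 2)) ⊆
      grpDom Fam.k m ρ Fam.grp i h := by
    intro y hy z hz
    refine hdom z fun x hx => ?_
    rw [mem_sphere_iff_norm] at hz
    by_cases hxy : x = y
    · rw [hxy, hz]
    · have h1 := hD.sep x (hJI hx) y (hJI hy) hxy
      have h2 := hr x (hJI hx)
      have h3 := hr y (hJI hy)
      have h4 := hpos x (hJI hx)
      have h5 := hpos y (hJI hy)
      have h6 : ‖gp Fam.k h x - gp Fam.k h y‖ ≤ ‖z - gp Fam.k h y‖ + ‖z - gp Fam.k h x‖ := by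
        have : gp Fam.k h x - gp Fam.k h y = (z - gp Fam.k h y) - (z - gp Fam.k h x) := by ring
        rw [this]
        exact norm_sub_le _ _
      linarith
  -- the cells
  set T : Finset (Fin Fam.k) := Finset.univ.filter (fun j => Fam.grp j = i) with hTdef
  have hfib : ∀ f : Fin Fam.k × ℤ × ℤ → ℂ,
      ∑ j ∈ T, ∑ x ∈ J with x.1 = j, f x = ∑ x ∈ J, f x := fun f =>
    Finset.sum_fiberwise_of_maps_to (s := J) (t := T) (g := fun x => x.1) (fun x hx =>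
      Finset.mem_filter.2 ⟨Finset.mem_univ _, (Finset.mem_filter.1 hx).2⟩) f
  have hB' : ∀ j : Fin Fam.k, ∃ u v : ℂ, ‖u‖ ≤ 200 * lam ∧ ‖v‖ ≤ 400 * lam ∧
      ∑ y ∈ J with y.1 = j, pA F (gp Fam.k h y) (64 * (ρ y.1 (gp Fam.k h y) * h ^ 2))
        = u * Fam.α j ∧
      ∀ z, (∀ y ∈ J, h / 2 ≤ ‖z - gp Fam.k h y‖) →
        ‖∑ y ∈ J with y.1 = j, part F (gp Fam.k h y) (64 * (ρ y.1 (gp Fam.k h y) * h ^ 2)) z
          - (u * Fam.G j z + v * Fam.H j z)‖
            ≤ 10 ^ 7 * lam / θ * wt Fam.R (z - Fam.x j) := by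
    intro j
    have hj : ∀ y ∈ J.filter (fun y => y.1 = j), y ∈ J ∧ y.1 = j := fun y hy =>
      Finset.mem_filter.1 hy
    obtain ⟨u, v, hu, hv, hs, hp⟩ := hB j (J.filter (fun y => y.1 = j))
      (fun y hy => by
        obtain ⟨h1, h2⟩ := hj y hy
        refine ⟨h2, ?_⟩
        rw [← h2]
        have h3 := hpos y (hJI h1)
        exact (pos_iff_pos_of_mul_pos h3).2 (by positivity)) F
      (fun y hy => by
        obtain ⟨h1, h2⟩ := hj y hy
        rw [← h2]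
        exact hFd.continuousOn.mono (hsph y h1))
      (fun y hy z hz => by
        obtain ⟨h1, h2⟩ := hj y hy
        rw [← h2] at hz
        exact hFb z (hsph y h1 hz))
    refine ⟨u, v, hu, hv, ?_, ?_⟩
    · rw [← hs]
      refine Finset.sum_congr rfl fun y hy => ?_
      rw [(hj y hy).2]
    · intro z hz
      have h1 := hp z (fun y hy => hz y (hj y hy).1)
      have h2 : ∑ y ∈ J with y.1 = j,
            part F (gp Fam.k h y) (64 * (ρ y.1 (gp Fam.k h y) * h ^ 2)) z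
          = ∑ y ∈ J with y.1 = j,
            part F (gp Fam.k h y) (64 * (ρ j (gp Fam.k h y) * h ^ 2)) z := by
        refine Finset.sum_congr rfl fun y hy => ?_
        rw [(hj y hy).2]
      rw [h2]
      exact h1
  choose u v hu hv hs hp using hB'
  have hcoef : ∑ j ∈ T, u j * (Fam.α j : ℂ) = a := by
    rw [ha', ← hfib]
    exact Finset.sum_congr rfl fun j _ => (hs j).symm
  rw [← hcoef, Finset.mul_sum]
  refine norm_sum_le_of_le _ fun j _ => ?_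
  rw [norm_mul, Complex.norm_real, Real.norm_of_nonneg (hα j).le]
  exact mul_le_mul_of_nonneg_right (hu j) (hα j).le

end Pool.Agent.SV
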