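import Pool.Agent.Helper53.AC.B9
import Pool.Agent.Helper53.AP.AP1
import Pool.Agent.Helper53.AP.AP2

/-!
# AP-3: two sets with a small common border

Adapt the proof of `B9_key` and `alpha_cover` (file AC/B9.lean, please copy and modify it, private
lemmas must be copied). Use `exists_family2` instead of `exists_family`; the colours `0, 1, 2` are
treated with `back_main`, the colour `3` with `mass_bound`:
`‖b 3‖ ≤ 200 * lam * (8 * C)`; in the choice of `θ` add the requirement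
`3200 * θ ^ 2 * C ≤ δ * δ` (for instance `θ ≤ δ * δ / (3200 * (C + 1))`, as `θ ≤ 1`), which with
`lam = 2 * θ ^ 2 / δ` gives `200 * lam * (8 * C) ≤ δ`. So
`‖a‖ ≤ (1 + δ) * ((1 + δ) * ((1 + 2 * δ) * S + δ) + δ)` with
`S = (alpha E₁).toReal + (alpha E₂).toReal + (alpha ((E₁ ∪ E₂) ∩ cthickening (3 * t) X)).toReal`;
let `δ → 0`.
-/

set_option autoImplicit false

open Complex Filter Topology Metric
open scoped ComplexConjugate

namespace Pool.Agent.SV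

open Pool.Agent.Helper53.CAC

private theorem AP3_rho_cont (α d : ℝ) (c : ℂ) (θ lam : ℝ) : Continuous (rhoC α d c θ lam) := by
  unfold rhoC
  exact continuous_const.mul ((blob_cont _ _).add (blob_cont _ _))

private theorem AP3_gC_cont (α d : ℝ) (c : ℂ) (θ : ℝ) (a b : ℂ) : Continuous (gC α d c θ a b) := by
  unfold gC
  exact continuous_const.mul ((continuous_const.mul (continuous_ofReal.comp (blob_cont _ _))).add
    (continuous_const.mul (continuous_ofReal.comp (blob_cont _ _))))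

private theorem AP3_rho_supp {α θ : ℝ} (hα : 0 < α) (hθ : 0 < θ) (d : ℝ) (c : ℂ) (lam : ℝ) :
    HasCompactSupport (rhoC α d c θ lam) := by
  unfold rhoC
  exact ((blob_compact _ (mul_pos hθ hα)).add (blob_compact _ (mul_pos hθ hα))).mul_left

private theorem AP3_rho_nonneg {α lam : ℝ} (hα : 0 ≤ α) (hl : 0 ≤ lam) (d : ℝ) (c : ℂ) (θ : ℝ)
    (ζ : ℂ) : 0 ≤ rhoC α d c θ lam ζ := by
  unfold rhoC
  exact mul_nonneg (mul_nonneg hl hα) (add_nonneg (blob_nonneg _ _ _) (blob_nonneg _ _ _))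

/-- the estimate for one value of the parameter -/
private theorem AP3_key {E₁ E₂ X : Set ℂ} (hE1 : IsCompact E₁) (hE2 : IsCompact E₂)
    (hX : IsCompact X) {t : ℝ} (ht : 0 < t) {C : ℝ} (hC : 0 ≤ C)
    (hs : ∃ᶠ s : ℝ in 𝓝[>] 0, MeasureTheory.volume
      ((thickening s (E₁ \ E₂) ∩ thickening s (E₂ \ E₁)) \ thickening t X)
        ≤ ENNReal.ofReal (C * s)) {f : ℂ → ℂ} {a : ℂ}
    (hf : Admissible (E₁ ∪ E₂) f a) {δ : ℝ} (hδ : 0 < δ) (hδ1 : δ ≤ 1) :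
    ‖a‖ ≤ (1 + δ) * ((1 + δ) * ((1 + 2 * δ) * ((alpha E₁).toReal + (alpha E₂).toReal
      + (alpha ((E₁ ∪ E₂) ∩ cthickening (3 * t) X)).toReal) + δ) + δ) := by
  obtain ⟨C₀, hC₀, hfam⟩ := exists_family2
  have hS0 : 0 ≤ (alpha E₁).toReal + (alpha E₂).toReal
      + (alpha ((E₁ ∪ E₂) ∩ cthickening (3 * t) X)).toReal := by positivity
  have hK : ∀ i, IsCompact ((![E₁, E₂, (E₁ ∪ E₂) ∩ cthickening (3 * t) X, E₁ ∪ E₂] :
      Fin 4 → Set ℂ) i) := by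
    intro i
    fin_cases i
    · exact hE1
    · exact hE2
    · exact (hE1.union hE2).inter_right isClosed_cthickening
    · exact hE1.union hE2
  obtain ⟨K', hK', hK'sub, hholo⟩ := hf.holo
  -- the parameters
  obtain ⟨θ, hθ, hθ1, hθ2, hθ3, hθ4⟩ : ∃ θ : ℝ, 0 < θ ∧ θ ≤ 1 / 8 ∧ 10 ^ 4 * θ * C₀ ≤ δ ∧
      2 * 10 ^ 7 * θ * C₀ ≤ δ * δ ∧ 3200 * θ * C ≤ δ * δ := by
    have h1 : 0 < δ * δ / (2 * 10 ^ 7 * C₀) := by positivity
    have h2 : 0 < δ / (10 ^ 4 * C₀) := by positivity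
    have h0 : 0 < δ * δ / (3200 * (C + 1)) := by positivity
    refine ⟨min (min (1 / 8) (δ * δ / (3200 * (C + 1))))
      (min (δ / (10 ^ 4 * C₀)) (δ * δ / (2 * 10 ^ 7 * C₀))),
      lt_min (lt_min (by norm_num) h0) (lt_min h2 h1), (min_le_left _ _).trans (min_le_left _ _),
      ?_, ?_, ?_⟩
    · have h3 : min (min (1 / 8) (δ * δ / (3200 * (C + 1))))
          (min (δ / (10 ^ 4 * C₀)) (δ * δ / (2 * 10 ^ 7 * C₀)))
          ≤ δ / (10 ^ 4 * C₀) := (min_le_right _ _).trans (min_le_left _ _)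
      calc 10 ^ 4 * _ * C₀ ≤ 10 ^ 4 * (δ / (10 ^ 4 * C₀)) * C₀ := by gcongr
        _ = δ := by field_simp
    · have h3 : min (min (1 / 8) (δ * δ / (3200 * (C + 1))))
          (min (δ / (10 ^ 4 * C₀)) (δ * δ / (2 * 10 ^ 7 * C₀)))
          ≤ δ * δ / (2 * 10 ^ 7 * C₀) := (min_le_right _ _).trans (min_le_right _ _)
      calc 2 * 10 ^ 7 * _ * C₀ ≤ 2 * 10 ^ 7 * (δ * δ / (2 * 10 ^ 7 * C₀)) * C₀ := by gcongr
        _ = δ * δ := by field_simp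
    · have h3 : min (min (1 / 8) (δ * δ / (3200 * (C + 1))))
          (min (δ / (10 ^ 4 * C₀)) (δ * δ / (2 * 10 ^ 7 * C₀)))
          ≤ δ * δ / (3200 * (C + 1)) := (min_le_left _ _).trans (min_le_right _ _)
      have hmin0 : 0 ≤ min (min (1 / 8) (δ * δ / (3200 * (C + 1))))
          (min (δ / (10 ^ 4 * C₀)) (δ * δ / (2 * 10 ^ 7 * C₀))) :=
        (lt_min (lt_min (by norm_num) h0) (lt_min h2 h1)).le
      calc 3200 * _ * C ≤ 3200 * (δ * δ / (3200 * (C + 1))) * (C + 1) := by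
            gcongr
            linarith
        _ = δ * δ := by field_simp
  set ω : ℝ := θ ^ 2 with hω
  have hω0 : 0 < ω := by positivity
  set lam : ℝ := 2 * ω / δ with hlam
  have hlam0 : 0 < lam := by positivity
  obtain ⟨Fam, g, A, B, hg, hgω, hfg, haA, hjun⟩ := hfam E₁ E₂ X hE1 hE2 hX t ht C hC hs f a
    hf.cont (hholo.mono (Set.compl_subset_compl.2 hK'sub)) hf.zero hf.coeff ω hω0
  rcases Nat.eq_zero_or_pos Fam.k with hk | hk
  · have ha0 : a = 0 := by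
      rw [haA]
      exact Finset.sum_eq_zero fun j _ => absurd j.2 (by omega)
    rw [ha0, norm_zero]
    positivity
  -- the densities
  set ρ : Fin Fam.k → ℂ → ℝ := fun j => rhoC (Fam.α j) (Fam.d j) (Fam.c j) θ lam with hρ
  set gg : Fin Fam.k → ℂ → ℂ := fun j ζ =>
    ((1 + δ : ℝ) : ℂ)⁻¹ * gC (Fam.α j) (Fam.d j) (Fam.c j) θ (A j) (B j) ζ with hgg
  have h1δ : (0 : ℝ) < 1 + δ := by linarith
  have hnδ : ‖((1 + δ : ℝ) : ℂ)⁻¹‖ = (1 + δ)⁻¹ := by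
    rw [norm_inv, Complex.norm_real, Real.norm_of_nonneg h1δ.le]
  have hg1 : ∀ j z, ‖gg j z‖ ≤ δ * Real.pi * ρ j z := by
    intro j z
    have e1 := gC_norm (Fam.cell j) hθ (hg j) (hgω j) z
    have e2 : rhoC (Fam.α j) (Fam.d j) (Fam.c j) θ (2 * ω) z = δ * ρ j z := by
      simp only [hρ, rhoC, hlam]
      field_simp
    rw [e2] at e1
    have e3 : 0 ≤ ρ j z := AP3_rho_nonneg (Fam.cell j).α_pos.le hlam0.le _ _ _ _
    have e4 : (1 + δ)⁻¹ ≤ 1 := inv_le_one_of_one_le₀ (by linarith)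
    have e5 : 0 ≤ ‖gC (Fam.α j) (Fam.d j) (Fam.c j) θ (A j) (B j) z‖ := norm_nonneg _
    calc ‖gg j z‖ = (1 + δ)⁻¹ * ‖gC (Fam.α j) (Fam.d j) (Fam.c j) θ (A j) (B j) z‖ := by
          simp only [hgg]; rw [norm_mul, hnδ]
      _ ≤ 1 * ‖gC (Fam.α j) (Fam.d j) (Fam.c j) θ (A j) (B j) z‖ :=
          mul_le_mul_of_nonneg_right e4 e5
      _ ≤ Real.pi * (δ * ρ j z) := by rw [one_mul]; exact e1
      _ = δ * Real.pi * ρ j z := by ring
  have hF1 : ∀ z, ‖(Real.pi : ℂ)⁻¹ * ∑ c, ∫ ζ, gg c ζ / (z - ζ)‖ ≤ 1 := by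
    intro z
    have e1 : ∀ j, ∫ ζ, gg j ζ / (z - ζ) = ((1 + δ : ℝ) : ℂ)⁻¹ *
        ∫ ζ, gC (Fam.α j) (Fam.d j) (Fam.c j) θ (A j) (B j) ζ / (z - ζ) := by
      intro j
      rw [← MeasureTheory.integral_const_mul]
      congr 1
      funext ζ
      simp only [hgg]
      ring
    have e2 : (Real.pi : ℂ)⁻¹ * ∑ c, ∫ ζ, gg c ζ / (z - ζ) = ((1 + δ : ℝ) : ℂ)⁻¹ *
        (f z + ∑ j, ((Real.pi : ℂ)⁻¹ *
          (∫ ζ, gC (Fam.α j) (Fam.d j) (Fam.c j) θ (A j) (B j) ζ / (z - ζ)) - g j z)) := by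
      rw [Finset.sum_sub_distrib, hfg z, add_sub_cancel, ← Finset.mul_sum]
      rw [Finset.sum_congr rfl fun j _ => e1 j, ← Finset.mul_sum]
      ring
    have e3 : ‖∑ j, ((Real.pi : ℂ)⁻¹ *
          (∫ ζ, gC (Fam.α j) (Fam.d j) (Fam.c j) θ (A j) (B j) ζ / (z - ζ)) - g j z)‖ ≤ δ := by
      calc _ ≤ ∑ j, ‖(Real.pi : ℂ)⁻¹ *
          (∫ ζ, gC (Fam.α j) (Fam.d j) (Fam.c j) θ (A j) (B j) ζ / (z - ζ)) - g j z‖ :=
            norm_sum_le _ _
        _ ≤ ∑ j, 10 ^ 4 * ω / θ * wt Fam.R (z - Fam.x j) :=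
            Finset.sum_le_sum fun j _ => fwd_cell Fam.R_pos (Fam.cell j) hθ hθ1 (hg j) (hgω j) z
        _ = 10 ^ 4 * ω / θ * ∑ j, wt Fam.R (z - Fam.x j) := by rw [Finset.mul_sum]
        _ ≤ 10 ^ 4 * ω / θ * C₀ := mul_le_mul_of_nonneg_left (Fam.lat z) (by positivity)
        _ = 10 ^ 4 * θ * C₀ := by rw [hω]; field_simp
        _ ≤ δ := hθ2
    rw [e2, norm_mul, hnδ]
    have e4 : ‖f z + ∑ j, ((Real.pi : ℂ)⁻¹ *
          (∫ ζ, gC (Fam.α j) (Fam.d j) (Fam.c j) θ (A j) (B j) ζ / (z - ζ)) - g j z)‖ ≤ 1 + δ :=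
      (norm_add_le _ _).trans (add_le_add (hf.bound z) e3)
    calc (1 + δ)⁻¹ * _ ≤ (1 + δ)⁻¹ * (1 + δ) := mul_le_mul_of_nonneg_left e4 (by positivity)
      _ = 1 := inv_mul_cancel₀ h1δ.ne'
  have hint : (Real.pi : ℂ)⁻¹ * ∑ c, ∫ ζ, gg c ζ = ((1 + δ : ℝ) : ℂ)⁻¹ * a := by
    have e1 : ∀ j, (Real.pi : ℂ)⁻¹ * ∫ ζ, gg j ζ = ((1 + δ : ℝ) : ℂ)⁻¹ * A j := by
      intro j
      have e2 := gC_int (Fam.cell j).α_pos (d := Fam.d j) (Fam.c j) hθ (A j) (B j)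
      simp only [hgg]
      rw [MeasureTheory.integral_const_mul]
      calc _ = ((1 + δ : ℝ) : ℂ)⁻¹ * ((Real.pi : ℂ)⁻¹ *
          ∫ ζ, gC (Fam.α j) (Fam.d j) (Fam.c j) θ (A j) (B j) ζ) := by ring
        _ = _ := by rw [e2]
    rw [Finset.mul_sum, Finset.sum_congr rfl fun j _ => e1 j, ← Finset.mul_sum, ← haA]
  have hMT := MT (fun N c => P1_main c) Fam.k 4 hk ρ (fun j => AP3_rho_cont _ _ _ _ _)
    (fun j z => AP3_rho_nonneg (Fam.cell j).α_pos.le hlam0.le _ _ _ _)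
    (fun j => AP3_rho_supp (Fam.cell j).α_pos hθ _ _ _) gg
    (fun j => continuous_const.mul (AP3_gC_cont _ _ _ _ _ _)) hδ hδ1 hg1 hF1 Fam.grp hδ
  have hback := back_main Fam hK hk hθ hθ1 hlam0 hδ
  have hmass := mass_bound Fam hk hθ hθ1 hlam0
  obtain ⟨h, ⟨⟨F, b, hFd, hFb, hFz, hFc, hle⟩, hbk⟩, hms⟩ := ((hMT.and hback).and hmass).exists
  have hbi : ∀ i, ‖b i‖ ≤ (1 + 2 * δ) * (alpha ((![E₁, E₂, (E₁ ∪ E₂) ∩ cthickening (3 * t) X,
      E₁ ∪ E₂] : Fin 4 → Set ℂ) i)).toReal := by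
    intro i
    have e1 := hbk i (F i) (b i) (hFd i) (hFb i) (hFz i) (hFc i)
    have e2 : 10 ^ 7 * lam / θ * C₀ ≤ δ := by
      have e3 : 10 ^ 7 * lam / θ * C₀ = (2 * 10 ^ 7 * θ * C₀) / δ := by
        rw [hlam, hω]; field_simp
      rw [e3, div_le_iff₀ hδ]
      exact hθ3
    refine e1.trans (mul_le_mul_of_nonneg_right (by linarith) ENNReal.toReal_nonneg)
  have hb3 : ‖b 3‖ ≤ δ := by
    have e1 := hms 3 (F 3) (b 3) (hFd 3) (hFb 3) (hFz 3) (hFc 3)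
    have e2 : 200 * lam * ∑ j with Fam.grp j = 3, Fam.α j ≤ 200 * lam * (8 * C) :=
      mul_le_mul_of_nonneg_left hjun (by positivity)
    have e3 : 200 * lam * (8 * C) = (3200 * θ * C) * θ / δ := by
      rw [hlam, hω]; ring
    have e4 : (3200 * θ * C) * θ / δ ≤ δ := by
      rw [div_le_iff₀ hδ]
      have e5 : (3200 * θ * C) * θ ≤ (3200 * θ * C) * 1 :=
        mul_le_mul_of_nonneg_left (by linarith) (by positivity)
      linarith
    exact e1.trans (e2.trans (e3.le.trans e4))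
  have hsum : ∑ i, ‖b i‖ ≤ (1 + 2 * δ) * ((alpha E₁).toReal + (alpha E₂).toReal
      + (alpha ((E₁ ∪ E₂) ∩ cthickening (3 * t) X)).toReal) + δ := by
    have e0 := hbi 0
    have e1 := hbi 1
    have e2 := hbi 2
    simp only [Matrix.cons_val_zero, Matrix.cons_val_one, Matrix.cons_val] at e0 e1 e2
    rw [Fin.sum_univ_four]
    linarith
  rw [hint, norm_mul, hnδ] at hle
  have e1 : (1 + δ)⁻¹ * ‖a‖ ≤ (1 + δ) * ((1 + 2 * δ) * ((alpha E₁).toReal + (alpha E₂).toReal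
      + (alpha ((E₁ ∪ E₂) ∩ cthickening (3 * t) X)).toReal) + δ) + δ :=
    hle.trans (add_le_add (mul_le_mul_of_nonneg_left hsum h1δ.le) le_rfl)
  calc ‖a‖ = (1 + δ) * ((1 + δ)⁻¹ * ‖a‖) := by rw [mul_inv_cancel_left₀ h1δ.ne']
    _ ≤ _ := mul_le_mul_of_nonneg_left e1 h1δ.le

theorem alpha_border {E₁ E₂ X : Set ℂ} (h1 : IsCompact E₁) (h2 : IsCompact E₂)
    (hX : IsCompact X) {t : ℝ} (ht : 0 < t) {C : ℝ} (hC : 0 ≤ C)
    (hs : ∃ᶠ s : ℝ in 𝓝[>] 0, MeasureTheory.volume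
      ((thickening s (E₁ \ E₂) ∩ thickening s (E₂ \ E₁)) \ thickening t X)
        ≤ ENNReal.ofReal (C * s)) :
    alpha (E₁ ∪ E₂) ≤ alpha E₁ + alpha E₂ + alpha ((E₁ ∪ E₂) ∩ cthickening (3 * t) X) := by
  unfold alpha
  refine iSup_le fun f => iSup_le fun a => iSup_le fun hf => ?_
  change ENNReal.ofReal ‖a‖ ≤ alpha E₁ + alpha E₂ + alpha ((E₁ ∪ E₂) ∩ cthickening (3 * t) X)
  have hc3 : IsCompact ((E₁ ∪ E₂) ∩ cthickening (3 * t) X) :=
    (h1.union h2).inter_right isClosed_cthickening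
  have hS : alpha E₁ + alpha E₂ + alpha ((E₁ ∪ E₂) ∩ cthickening (3 * t) X)
      = ENNReal.ofReal ((alpha E₁).toReal + (alpha E₂).toReal
        + (alpha ((E₁ ∪ E₂) ∩ cthickening (3 * t) X)).toReal) := by
    rw [ENNReal.ofReal_add (by positivity) ENNReal.toReal_nonneg,
      ENNReal.ofReal_add ENNReal.toReal_nonneg ENNReal.toReal_nonneg,
      ENNReal.ofReal_toReal (alpha_ne_top h1), ENNReal.ofReal_toReal (alpha_ne_top h2),
      ENNReal.ofReal_toReal (alpha_ne_top hc3)]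
  rw [hS]
  refine ENNReal.ofReal_le_ofReal ?_
  set S : ℝ := (alpha E₁).toReal + (alpha E₂).toReal
        + (alpha ((E₁ ∪ E₂) ∩ cthickening (3 * t) X)).toReal with hSdef
  have hlim : Tendsto (fun δ : ℝ => (1 + δ) * ((1 + δ) * ((1 + 2 * δ) * S + δ) + δ)) (𝓝[>] 0)
      (𝓝 S) := by
    have h1 : Continuous (fun δ : ℝ => (1 + δ) * ((1 + δ) * ((1 + 2 * δ) * S + δ) + δ)) := by
      fun_prop
    have h2 := h1.tendsto 0
    simp only [add_zero, mul_zero, one_mul] at h2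
    exact h2.mono_left nhdsWithin_le_nhds
  refine ge_of_tendsto hlim ?_
  have h3 : Set.Ioc (0 : ℝ) 1 ∈ 𝓝[>] (0 : ℝ) := Ioc_mem_nhdsGT one_pos
  filter_upwards [h3] with δ hδ
  exact AP3_key h1 h2 hX ht hC hs hf hδ.1 hδ.2

end Pool.Agent.SV
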