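import Pool.Agent.Helper53.AC.G2
import Pool.Agent.Helper53.AP.AP3

/-!
# AP-4: final form and special cases

* `alpha_border_gamma`: from `alpha_border` and `gamma_outer` (`alpha ≤ gamma`, monotone), as in
  the proof of `alpha_union` (file AC/G2.lean).
* `border_of_inter`: if `X` contains `closure (E₁ \ E₂) ∩ closure (E₂ \ E₁)` then for each `t > 0`
  the set `(thickening s (E₁ \ E₂) ∩ thickening s (E₂ \ E₁)) \ thickening t X` is empty for all
  small `s > 0` (compactness: `⋂_s` of the closed thickenings is the intersection of the closures).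
* `alpha_cut`: cut a compact set by the imaginary axis; here it is derived from `alpha_curve` with
  `X = ∅` (`gamma ∅ = 0`, `thickening t ∅ = ∅`).
* `alpha_curve`: a Lipschitz curve `φ : ℝ → ℂ` restricted to `[0, 1]`: the hypothesis
  says that each point near both sets is near the curve; the volume of
  `thickening s (φ '' Set.Icc 0 1)` is at most `(1 / s + 1) * π * ((L + 2) * s) ^ 2`.
-/

set_option autoImplicit false

open Complex Filter Topology Metric
open scoped ComplexConjugate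

namespace Pool.Agent.SV

open Pool.Agent.Helper53.CAC

theorem alpha_border_gamma {E₁ E₂ X : Set ℂ} (h1 : IsCompact E₁) (h2 : IsCompact E₂)
    (hX : IsCompact X)
    (hs : ∀ t : ℝ, 0 < t → ∃ C : ℝ, ∃ᶠ s : ℝ in 𝓝[>] 0, MeasureTheory.volume
      ((thickening s (E₁ \ E₂) ∩ thickening s (E₂ \ E₁)) \ thickening t X)
        ≤ ENNReal.ofReal (C * s)) :
    alpha (E₁ ∪ E₂) ≤ alpha E₁ + alpha E₂ + gamma X := by
  apply ENNReal.le_of_forall_pos_le_add
  intro ε hε _
  obtain ⟨t, ht, hg⟩ := gamma_outer hX (ε := (ε : ℝ)) (by exact_mod_cast hε)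
  obtain ⟨C, hC⟩ := hs (t / 3) (by linarith)
  have hC' : ∃ᶠ s : ℝ in 𝓝[>] 0, MeasureTheory.volume
      ((thickening s (E₁ \ E₂) ∩ thickening s (E₂ \ E₁)) \ thickening (t / 3) X)
        ≤ ENNReal.ofReal (max C 0 * s) := by
    refine (hC.and_eventually self_mem_nhdsWithin).mono ?_
    rintro s ⟨hs1, hs2⟩
    refine hs1.trans (ENNReal.ofReal_le_ofReal ?_)
    exact mul_le_mul_of_nonneg_right (le_max_left _ _) (le_of_lt hs2)
  have h3 := alpha_border h1 h2 hX (t := t / 3) (by linarith) (C := max C 0) (le_max_right _ _) hC'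
  have h4 : (3 : ℝ) * (t / 3) = t := by ring
  rw [h4] at h3
  have e3 : alpha ((E₁ ∪ E₂) ∩ cthickening t X) ≤ gamma X + ENNReal.ofReal ε :=
    (alpha_mono Set.inter_subset_right).trans ((alpha_le_gamma _).trans hg)
  have e4 : ENNReal.ofReal (ε : ℝ) = (ε : ENNReal) := ENNReal.ofReal_coe_nnreal
  rw [e4] at e3
  calc alpha (E₁ ∪ E₂) ≤ alpha E₁ + alpha E₂ + alpha ((E₁ ∪ E₂) ∩ cthickening t X) := h3
    _ ≤ alpha E₁ + alpha E₂ + (gamma X + ε) := add_le_add le_rfl e3
    _ = alpha E₁ + alpha E₂ + gamma X + ε := by rw [add_assoc (alpha E₁ + alpha E₂)]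

theorem border_of_inter {E₁ E₂ X : Set ℂ} (h1 : IsCompact E₁) (h2 : IsCompact E₂)
    (hX : IsCompact X) (h : closure (E₁ \ E₂) ∩ closure (E₂ \ E₁) ⊆ X) {t : ℝ} (ht : 0 < t) :
    ∀ᶠ s : ℝ in 𝓝[>] 0,
      (thickening s (E₁ \ E₂) ∩ thickening s (E₂ \ E₁)) \ thickening t X = ∅ := by
  have hK1 : IsCompact (closure (E₁ \ E₂)) :=
    h1.of_isClosed_subset isClosed_closure (h1.isClosed.closure_subset_iff.2 Set.sdiff_subset)
  have hK2 : IsCompact (closure (E₂ \ E₁)) :=
    h2.of_isClosed_subset isClosed_closure (h2.isClosed.closure_subset_iff.2 Set.sdiff_subset)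
  have hP : IsCompact (closure (E₁ \ E₂) \ thickening (t / 2) X) := hK1.diff isOpen_thickening
  have hd : Disjoint (closure (E₁ \ E₂) \ thickening (t / 2) X) (closure (E₂ \ E₁)) := by
    rw [Set.disjoint_left]
    rintro z ⟨hz1, hz2⟩ hz3
    exact hz2 (self_subset_thickening (by linarith) X (h ⟨hz1, hz3⟩))
  obtain ⟨δ, hδ, hδ2⟩ := hd.exists_cthickenings hP hK2.isClosed
  have hev : ∀ᶠ s : ℝ in 𝓝[>] 0, s < min δ (t / 2) :=
    nhdsWithin_le_nhds (Iio_mem_nhds (lt_min hδ (by linarith)))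
  filter_upwards [hev] with s hs
  have hs1 : s < δ := hs.trans_le (min_le_left _ _)
  have hs2 : s < t / 2 := hs.trans_le (min_le_right _ _)
  rw [Set.eq_empty_iff_forall_notMem]
  rintro z ⟨⟨hz1, hz2⟩, hz3⟩
  rw [mem_thickening_iff] at hz1 hz2
  obtain ⟨a, ha, hza⟩ := hz1
  obtain ⟨b, hb, hzb⟩ := hz2
  by_cases haX : a ∈ thickening (t / 2) X
  · apply hz3
    rw [mem_thickening_iff] at haX ⊢
    obtain ⟨x, hx, hax⟩ := haX
    refine ⟨x, hx, ?_⟩
    have := dist_triangle z a x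
    linarith
  · refine Set.disjoint_left.1 hδ2
      (mem_cthickening_of_dist_le z a δ _ ⟨subset_closure ha, haX⟩ (by linarith))
      (mem_cthickening_of_dist_le z b δ _ (subset_closure hb) (by linarith))

theorem alpha_border_closure {E₁ E₂ : Set ℂ} (h1 : IsCompact E₁) (h2 : IsCompact E₂) :
    alpha (E₁ ∪ E₂) ≤ alpha E₁ + alpha E₂ + gamma (closure (E₁ \ E₂) ∩ closure (E₂ \ E₁)) := by
  have hK1 : IsCompact (closure (E₁ \ E₂)) :=
    h1.of_isClosed_subset isClosed_closure (h1.isClosed.closure_subset_iff.2 Set.sdiff_subset)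
  have hX : IsCompact (closure (E₁ \ E₂) ∩ closure (E₂ \ E₁)) :=
    hK1.inter_right isClosed_closure
  refine alpha_border_gamma h1 h2 hX ?_
  intro t ht
  refine ⟨0, ?_⟩
  refine Eventually.frequently ?_
  filter_upwards [border_of_inter h1 h2 hX subset_rfl ht] with s hs
  rw [hs]
  simp

private theorem ap4_gamma_empty : gamma ∅ = 0 := by
  rw [← nonpos_iff_eq_zero]
  refine iSup_le fun f => iSup_le fun a => iSup_le fun hf => ?_
  obtain ⟨K, _, hKM, hd, _⟩ := hf.holo
  have hK0 : K = ∅ := Set.subset_empty_iff.1 hKM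
  rw [hK0, Set.compl_empty, differentiableOn_univ] at hd
  have hf0 : ∀ z, f z = 0 := fun z => hd.apply_eq_of_tendsto_cocompact z hf.zero
  have h1 : Tendsto (fun z : ℂ => z * f z) (cocompact ℂ) (𝓝 0) := by
    have h2 : (fun z : ℂ => z * f z) = fun _ => 0 := by
      funext z
      rw [hf0 z, mul_zero]
    rw [h2]
    exact tendsto_const_nhds
  have ha : a = 0 := tendsto_nhds_unique hf.coeff h1
  rw [ha]
  simp

theorem curve_volume {φ : ℝ → ℂ} {L : NNReal} (hφ : LipschitzWith L φ) :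
    ∃ C : ℝ, ∀ s : ℝ, 0 < s → s ≤ 1 →
      MeasureTheory.volume (thickening s (φ '' Set.Icc 0 1)) ≤ ENNReal.ofReal (C * s) := by
  refine ⟨3 * ((L : ℝ) + 2) ^ 2 * Real.pi, ?_⟩
  intro s hs hs1
  obtain ⟨n, hn⟩ : ∃ n : ℕ, n = ⌈1 / s⌉₊ := ⟨_, rfl⟩
  have hn1 : 1 / s ≤ n := by rw [hn]; exact Nat.le_ceil _
  have hn2 : (n : ℝ) < 1 / s + 1 := by rw [hn]; exact Nat.ceil_lt_add_one (by positivity)
  have hs1' : 1 ≤ 1 / s := by rw [le_div_iff₀ hs]; linarith
  have hn0 : (0 : ℝ) < n := by linarith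
  have hns : 1 / (n : ℝ) ≤ s := by
    rw [div_le_iff₀ hn0]
    rw [div_le_iff₀ hs] at hn1
    linarith
  have hsub : thickening s (φ '' Set.Icc 0 1) ⊆
      ⋃ k ∈ Finset.range (n + 1), ball (φ ((k : ℝ) / n)) (((L : ℝ) + 2) * s) := by
    intro z hz
    rw [mem_thickening_iff] at hz
    obtain ⟨w, ⟨u, hu, rfl⟩, hzw⟩ := hz
    rw [Set.mem_iUnion₂]
    refine ⟨⌊u * n⌋₊, ?_, ?_⟩
    · rw [Finset.mem_range]
      have h1 : (⌊u * n⌋₊ : ℝ) ≤ u * n := Nat.floor_le (mul_nonneg hu.1 hn0.le)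
      have h2 : u * n ≤ n := by nlinarith [hu.2]
      have h3 : (⌊u * n⌋₊ : ℝ) < (n : ℝ) + 1 := by linarith
      exact_mod_cast h3
    · have h1 : (⌊u * n⌋₊ : ℝ) ≤ u * n := Nat.floor_le (mul_nonneg hu.1 hn0.le)
      have h2 : u * n < (⌊u * n⌋₊ : ℝ) + 1 := Nat.lt_floor_add_one _
      have h3 : dist u ((⌊u * n⌋₊ : ℝ) / n) ≤ 1 / n := by
        rw [Real.dist_eq, abs_le]
        constructor
        · have : (⌊u * n⌋₊ : ℝ) / n ≤ u := by
            rw [div_le_iff₀ hn0]; exact h1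
          have h5 : 0 < 1 / (n : ℝ) := by positivity
          linarith
        · rw [sub_le_iff_le_add, ← add_div, le_div_iff₀ hn0]
          linarith
      have h4 : dist (φ u) (φ ((⌊u * n⌋₊ : ℝ) / n)) ≤ L * s := by
        refine (hφ.dist_le_mul _ _).trans ?_
        exact mul_le_mul_of_nonneg_left (h3.trans hns) L.2
      rw [mem_ball]
      have h5 := dist_triangle z (φ u) (φ ((⌊u * n⌋₊ : ℝ) / n))
      nlinarith
  calc MeasureTheory.volume (thickening s (φ '' Set.Icc 0 1))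
      ≤ MeasureTheory.volume
          (⋃ k ∈ Finset.range (n + 1), ball (φ ((k : ℝ) / n)) (((L : ℝ) + 2) * s)) :=
        MeasureTheory.measure_mono hsub
    _ ≤ ∑ k ∈ Finset.range (n + 1),
          MeasureTheory.volume (ball (φ ((k : ℝ) / n)) (((L : ℝ) + 2) * s)) :=
        MeasureTheory.measure_biUnion_finset_le _ _
    _ = ∑ k ∈ Finset.range (n + 1), ENNReal.ofReal ((((L : ℝ) + 2) * s) ^ 2 * Real.pi) := by
        refine Finset.sum_congr rfl fun k _ => ?_
        have e1 : (NNReal.pi : ENNReal) = ENNReal.ofReal Real.pi := by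
          rw [← NNReal.coe_real_pi, ENNReal.ofReal_coe_nnreal]
        have e2 : 0 ≤ ((L : ℝ) + 2) * s := by positivity
        rw [Complex.volume_ball, e1, ← ENNReal.ofReal_pow e2, ← ENNReal.ofReal_mul (sq_nonneg _)]
    _ = ENNReal.ofReal ((n + 1 : ℝ) * ((((L : ℝ) + 2) * s) ^ 2 * Real.pi)) := by
        have e3 : (0 : ℝ) ≤ (n : ℝ) + 1 := by positivity
        have e4 : ENNReal.ofReal ((n : ℝ) + 1) = ((n + 1 : ℕ) : ENNReal) := by
          have := ENNReal.ofReal_natCast (n + 1)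
          rw [← this]
          congr 1
          push_cast
          rfl
        rw [Finset.sum_const, Finset.card_range, nsmul_eq_mul, ENNReal.ofReal_mul e3, e4]
    _ ≤ ENNReal.ofReal (3 * ((L : ℝ) + 2) ^ 2 * Real.pi * s) := by
        refine ENNReal.ofReal_le_ofReal ?_
        have h1 : ((n : ℝ) + 1) * s ≤ 3 := by
          have h2 : ((n : ℝ) + 1) * s ≤ (1 / s + 2) * s :=
            mul_le_mul_of_nonneg_right (by linarith) hs.le
          have h3 : (1 / s + 2) * s = 1 + 2 * s := by field_simp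
          linarith
        have h4 : 0 ≤ ((L : ℝ) + 2) ^ 2 * Real.pi * s := by positivity
        calc (n + 1 : ℝ) * ((((L : ℝ) + 2) * s) ^ 2 * Real.pi)
            = (((n : ℝ) + 1) * s) * (((L : ℝ) + 2) ^ 2 * Real.pi * s) := by ring
          _ ≤ 3 * (((L : ℝ) + 2) ^ 2 * Real.pi * s) := mul_le_mul_of_nonneg_right h1 h4
          _ = _ := by ring

/-- `E₁` and `E₂` separated by a rectifiable curve up to the compact set `X`: every segment from a
point of `E₁ \ E₂` to a point of `E₂ \ E₁` meets the curve or `X`. -/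
theorem alpha_curve {E₁ E₂ X : Set ℂ} (h1 : IsCompact E₁) (h2 : IsCompact E₂)
    (hX : IsCompact X) {φ : ℝ → ℂ} {L : NNReal} (hφ : LipschitzWith L φ)
    (hsep : ∀ x ∈ E₁ \ E₂, ∀ y ∈ E₂ \ E₁, (segment ℝ x y ∩ (φ '' Set.Icc 0 1 ∪ X)).Nonempty) :
    alpha (E₁ ∪ E₂) ≤ alpha E₁ + alpha E₂ + gamma X := by
  obtain ⟨C, hC⟩ := curve_volume hφ
  refine alpha_border_gamma h1 h2 hX ?_
  intro t ht
  refine ⟨C, Eventually.frequently ?_⟩
  have hev : ∀ᶠ s : ℝ in 𝓝[>] 0, s < min 1 t :=
    nhdsWithin_le_nhds (Iio_mem_nhds (lt_min one_pos ht))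
  filter_upwards [hev, self_mem_nhdsWithin] with s hs hs0
  have hs1 : s < 1 := hs.trans_le (min_le_left _ _)
  have hs2 : s < t := hs.trans_le (min_le_right _ _)
  refine (MeasureTheory.measure_mono ?_).trans (hC s hs0 hs1.le)
  rintro z ⟨⟨hz1, hz2⟩, hz3⟩
  rw [mem_thickening_iff] at hz1 hz2
  obtain ⟨a, ha, hza⟩ := hz1
  obtain ⟨b, hb, hzb⟩ := hz2
  obtain ⟨w, hw, hw2⟩ := hsep a ha b hb
  have hwb : w ∈ ball z s := by
    refine (convex_ball z s).segment_subset ?_ ?_ hw
    · rw [mem_ball, dist_comm]; exact hza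
    · rw [mem_ball, dist_comm]; exact hzb
  rw [mem_ball, dist_comm] at hwb
  rcases hw2 with hw2 | hw2
  · rw [mem_thickening_iff]
    exact ⟨w, hw2, hwb⟩
  · exfalso
    apply hz3
    rw [mem_thickening_iff]
    exact ⟨w, hw2, hwb.trans hs2⟩

theorem alpha_cut {E : Set ℂ} (h : IsCompact E) :
    alpha E ≤ alpha (E ∩ {z | z.re ≤ 0}) + alpha (E ∩ {z | 0 ≤ z.re}) := by
  have hc1 : IsClosed {z : ℂ | z.re ≤ 0} := isClosed_le Complex.continuous_re continuous_const
  have hc2 : IsClosed {z : ℂ | 0 ≤ z.re} := isClosed_le continuous_const Complex.continuous_re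
  obtain ⟨M, hM⟩ := h.isBounded.exists_norm_le
  have hM0 : 0 ≤ max M 0 := le_max_right _ _
  have hU : (E ∩ {z : ℂ | z.re ≤ 0}) ∪ (E ∩ {z : ℂ | 0 ≤ z.re}) = E := by
    ext z
    constructor
    · rintro (hz | hz)
      · exact hz.1
      · exact hz.1
    · intro hz
      rcases le_total z.re 0 with h3 | h3
      · exact Or.inl ⟨hz, h3⟩
      · exact Or.inr ⟨hz, h3⟩
  obtain ⟨B, hB⟩ : ∃ B, B = max M 0 + 1 := ⟨_, rfl⟩
  have hB0 : 0 < B := by linarith
  have hlip : LipschitzWith (Real.toNNReal (2 * B))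
      (fun u : ℝ => (((2 * B) * u - B : ℝ) : ℂ) * Complex.I) := by
    refine LipschitzWith.of_dist_le_mul ?_
    intro u v
    rw [dist_eq_norm, ← sub_mul, norm_mul, Complex.norm_I, mul_one, ← Complex.ofReal_sub,
      Complex.norm_real, Real.dist_eq, Real.coe_toNNReal _ (by positivity)]
    have : 2 * B * u - B - (2 * B * v - B) = 2 * B * (u - v) := by ring
    rw [this, Real.norm_eq_abs, abs_mul, abs_of_pos (by positivity)]
  have h3 := alpha_curve (h.inter_right hc1) (h.inter_right hc2) isCompact_empty hlip (by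
    rintro x ⟨⟨hx1, hx2⟩, hx3⟩ y ⟨⟨hy1, hy2⟩, hy3⟩
    have hx4 : x.re < 0 := by
      by_contra h5
      exact hx3 ⟨hx1, not_lt.1 h5⟩
    have hy4 : 0 < y.re := by
      by_contra h5
      exact hy3 ⟨hy1, not_lt.1 h5⟩
    obtain ⟨u, hu⟩ : ∃ u, u = -x.re / (y.re - x.re) := ⟨_, rfl⟩
    have hd : 0 < y.re - x.re := by linarith
    have hu0 : 0 ≤ u := by rw [hu]; exact div_nonneg (by linarith) hd.le
    have hu1 : u ≤ 1 := by rw [hu, div_le_one hd]; linarith
    have hud : u * (y.re - x.re) = -x.re := by rw [hu]; field_simp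
    obtain ⟨w, hw⟩ : ∃ w : ℂ, w = (1 - u) • x + u • y := ⟨_, rfl⟩
    have hwre : w.re = 0 := by
      rw [hw]
      simp only [Complex.add_re, Complex.smul_re, smul_eq_mul]
      linarith
    have hwseg : w ∈ segment ℝ x y := by
      rw [hw]
      exact ⟨1 - u, u, by linarith, hu0, by ring, rfl⟩
    have hwn : ‖w‖ ≤ B := by
      have e1 : x ∈ closedBall (0 : ℂ) B := by
        rw [mem_closedBall_zero_iff]
        have := hM x hx1
        have := le_max_left M 0
        linarith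
      have e2 : y ∈ closedBall (0 : ℂ) B := by
        rw [mem_closedBall_zero_iff]
        have := hM y hy1
        have := le_max_left M 0
        linarith
      have e3 := (convex_closedBall (0 : ℂ) B).segment_subset e1 e2 hwseg
      rwa [mem_closedBall_zero_iff] at e3
    refine ⟨w, hwseg, Or.inl ⟨(w.im + B) / (2 * B), ?_, ?_⟩⟩
    · have e4 : |w.im| ≤ B := (Complex.abs_im_le_norm w).trans hwn
      rw [abs_le] at e4
      constructor
      · apply div_nonneg <;> linarith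
      · rw [div_le_one (by positivity)]
        linarith
    · have e5 : 2 * B * ((w.im + B) / (2 * B)) - B = w.im := by
        field_simp
        ring
      show (((2 * B) * ((w.im + B) / (2 * B)) - B : ℝ) : ℂ) * Complex.I = w
      rw [e5]
      apply Complex.ext
      · simp [hwre]
      · simp)
  rw [hU, ap4_gamma_empty, add_zero] at h3
  exact h3

end Pool.Agent.SV
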